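import Pool.Agent.H7.KQ.Stmts

/-!
# Board `kq`, row KBD (helper56): cliques with few or many vertices in `B`
-/

set_option autoImplicit false

open Finset

namespace Pool.KQ

open Pool.Agent.H23.KT Pool.Agent.H46.KW

/-- one fibre: the cliques with given intersection `T` with `B` are determined by their rest -/
private lemma kbd_inj {V : Type} [DecidableEq V] (B : Finset V) {K K' : Finset V}
    (h1 : K ∩ B = K' ∩ B) (h2 : K \ B = K' \ B) : K = K' := by
  rw [← sdiff_union_inter K B, ← sdiff_union_inter K' B, h1, h2]

theorem kbd : KBDStmt := by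
  classical
  intro V _ G A B j
  set S : Finset (Finset V) := clq G (A ∪ B) (j + 2) with hS
  have hsub : ∀ K ∈ S, K \ B ⊆ A := by
    intro K hK x hx
    rw [mem_sdiff] at hx
    have h1 := ((mem_clq G).1 hK).1 hx.1
    rw [mem_union] at h1
    exact h1.resolve_right hx.2
  have hcl : ∀ K ∈ S, G.IsClique ((K \ B : Finset V) : Set V) := by
    intro K hK
    exact ((mem_clq G).1 hK).2.2.subset (by
      intro y hy
      exact mem_coe.2 (mem_sdiff.1 (mem_coe.1 hy)).1)
  have hcard : ∀ K ∈ S, (K \ B).card + (K ∩ B).card = j + 2 := by
    intro K hK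
    rw [← ((mem_clq G).1 hK).2.1]
    exact card_sdiff_add_card_inter K B
  -- the three parts
  have h0 : (S.filter (fun K => (K ∩ B).card = 0)).card ≤ kc G A (j + 2) := by
    rw [kc_eq]
    apply card_le_card
    intro K hK
    rw [mem_filter] at hK
    have hB : K ∩ B = ∅ := card_eq_zero.1 hK.2
    have hKB : K \ B = K := by
      have := sdiff_union_inter K B
      rwa [hB, union_empty] at this
    rw [mem_clq]
    refine ⟨?_, ((mem_clq G).1 hK.1).2.1, ((mem_clq G).1 hK.1).2.2⟩
    have := hsub K hK.1
    rwa [hKB] at this
  have h1 : (S.filter (fun K => (K ∩ B).card = 1)).card ≤ B.card * kc G A (j + 1) := by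
    rw [kc_eq, ← card_product]
    -- `K ↦ (the vertex of K ∩ B, K \ B)`; compare with the image in `Finset V × Finset V`
    have hb : (B.image (fun b => ({b} : Finset V))).card ≤ B.card := card_image_le
    calc (S.filter (fun K => (K ∩ B).card = 1)).card
        ≤ ((B.image (fun b => ({b} : Finset V))) ×ˢ clq G A (j + 1)).card := by
          refine card_le_card_of_injOn (fun K => (K ∩ B, K \ B)) ?_ ?_
          · intro K hK
            rw [mem_coe, mem_filter] at hK
            rw [mem_coe, mem_product]
            obtain ⟨b, hb⟩ := card_eq_one.1 hK.2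
            refine ⟨?_, ?_⟩
            · rw [mem_image]
              refine ⟨b, ?_, hb.symm⟩
              have : b ∈ K ∩ B := by rw [hb]; exact mem_singleton_self b
              exact (mem_inter.1 this).2
            · rw [mem_clq]
              have h2 := hcard K hK.1
              rw [hK.2] at h2
              refine ⟨hsub K hK.1, ?_, hcl K hK.1⟩
              show (K \ B).card = j + 1
              omega
          · intro K _ K' _ h
            simp only [Prod.mk.injEq] at h
            exact kbd_inj B h.1 h.2
      _ ≤ (B ×ˢ clq G A (j + 1)).card := by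
          rw [card_product, card_product]
          exact Nat.mul_le_mul_right _ hb
  have h2 : (S.filter (fun K => 2 ≤ (K ∩ B).card)).card ≤
      (if B = ∅ then 0 else 2 ^ B.card * (A.card + 1) ^ j) := by
    split_ifs with hB
    · rw [Nat.le_zero, card_eq_zero, filter_eq_empty_iff]
      intro K _
      rw [hB, inter_empty, card_empty]
      omega
    · have hmaps : ∀ K ∈ S.filter (fun K => 2 ≤ (K ∩ B).card), K ∩ B ∈ B.powerset := by
        intro K _
        exact mem_powerset.2 inter_subset_right
      rw [card_eq_sum_card_fiberwise hmaps, ← card_powerset, ← smul_eq_mul, ← sum_const]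
      refine sum_le_sum ?_
      intro T _
      by_cases hT : 2 ≤ T.card ∧ T.card ≤ j + 2
      · have h3 : ((S.filter (fun K => 2 ≤ (K ∩ B).card)).filter (fun K => K ∩ B = T)).card ≤
            (A.powersetCard (j + 2 - T.card)).card := by
          refine card_le_card_of_injOn (fun K => K \ B) ?_ ?_
          · intro K hK
            rw [mem_coe, mem_filter, mem_filter] at hK
            rw [mem_coe, mem_powersetCard]
            have h4 := hcard K hK.1.1
            rw [hK.2] at h4
            refine ⟨hsub K hK.1.1, ?_⟩
            show (K \ B).card = j + 2 - T.card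
            omega
          · intro K hK K' hK' h
            rw [mem_coe, mem_filter] at hK hK'
            exact kbd_inj B (hK.2.trans hK'.2.symm) h
        refine h3.trans ?_
        rw [card_powersetCard]
        calc A.card.choose (j + 2 - T.card) ≤ A.card ^ (j + 2 - T.card) :=
              Nat.choose_le_pow _ _
          _ ≤ (A.card + 1) ^ (j + 2 - T.card) := Nat.pow_le_pow_left (Nat.le_succ _) _
          _ ≤ (A.card + 1) ^ j := Nat.pow_le_pow_right (Nat.succ_pos _) (by omega)
      · have h3 : (S.filter (fun K => 2 ≤ (K ∩ B).card)).filter (fun K => K ∩ B = T) = ∅ := by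
          rw [filter_eq_empty_iff]
          intro K hK hKT
          rw [mem_filter] at hK
          apply hT
          have h4 := hcard K hK.1
          rw [← hKT]
          exact ⟨hK.2, by omega⟩
        rw [h3, card_empty]
        exact Nat.zero_le _
  have hall : S.card ≤ (S.filter (fun K => (K ∩ B).card = 0)).card +
      (S.filter (fun K => (K ∩ B).card = 1)).card +
      (S.filter (fun K => 2 ≤ (K ∩ B).card)).card := by
    have h3 : S ⊆ (S.filter (fun K => (K ∩ B).card = 0) ∪ S.filter (fun K => (K ∩ B).card = 1)) ∪
        S.filter (fun K => 2 ≤ (K ∩ B).card) := by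
      intro K hK
      rw [mem_union, mem_union, mem_filter, mem_filter, mem_filter]
      rcases Nat.lt_or_ge (K ∩ B).card 2 with h | h
      · rcases Nat.lt_or_ge (K ∩ B).card 1 with h' | h'
        · exact Or.inl (Or.inl ⟨hK, by omega⟩)
        · exact Or.inl (Or.inr ⟨hK, by omega⟩)
      · exact Or.inr ⟨hK, h⟩
    refine (card_le_card h3).trans ?_
    refine (card_union_le _ _).trans ?_
    exact Nat.add_le_add_right (card_union_le _ _) _
  rw [kc_eq G (A ∪ B)]
  exact hall.trans (Nat.add_le_add (Nat.add_le_add h0 h1) h2)

end Pool.KQ
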